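import Pool.Agent.TH625.GM.Final

/-!
The weak Goldfeld statement fails for a cuspidal representation of `PGL₂` over `ℚ`.

Let `φ` be the golden ratio, `K = ℚ(√5)` and `t = π / (2 log φ)`. The Hecke character
`(β) ↦ (β mod √5 / 5) |β / β'|^{it}` of `K` of conductor `(√5)` gives an even Hecke-Maass cusp form
`f` of level `25`, weight `0` and trivial character. The representation `π'` of `PGL₂(𝔸)` generated
by `f` is a principal series at every place, so the global root number of `π' ⊗ η` is the same for
all quadratic characters `η`; it is `-1`, hence `L(1/2, π' ⊗ η_E) = 0` for every quadratic field `E`.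
So `N_{π'}(x) = 0` for every `x`.
-/

set_option autoImplicit false

open Filter Topology Pool.Agent.TH625.GM
open scoped Real UpperHalfPlane

namespace Pool.Agent.Results.MP_5f72fe_nt.NoPositiveProportion

/-- There is a Hecke-Maass cusp form `f` of level `25`, weight `0`, trivial character and Laplace
eigenvalue `1/4 + t²`, `t = π / (2 log φ)`, such that `L(1/2, f ⊗ χ) = 0` for every primitive
quadratic Dirichlet character `χ` (and for `χ = 1`). So the number `N(x)` of quadratic fields `E` with
`|Δ_E| < x` and `L(1/2, f ⊗ η_E) ≠ 0` is `0` for every `x`; no lower bound `N(x) ≥ c x` with `c > 0`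
holds for all large `x`, not even for arbitrarily large `x`, and `lim inf N(x) / x = 0`. -/
theorem result : ∃ (f : ℍ → ℂ) (a : ℕ → ℂ),
    IsHeckeMaassForm 25 (π / (2 * Real.log Real.goldenRatio)) f a ∧
    (∀ (q : ℕ) (χ : DirichletCharacter ℂ q), q ≠ 0 → χ.IsPrimitive → χ ^ 2 = 1 →
      CentralValueZero 25 a χ) ∧
    (∀ x : ℝ, countNonzero 25 a x = 0) ∧
    (¬ ∃ c : ℝ, 0 < c ∧ ∃ᶠ x : ℝ in atTop, c * x ≤ countNonzero 25 a x) ∧
    liminf (fun x : ℝ => (countNonzero 25 a x : ℝ) / x) atTop = 0 ∧
    (∀ x : ℝ, 3 < x → 0 < countAll x) ∧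
    Tendsto (fun x : ℝ => (countNonzero 25 a x : ℝ) / countAll x) atTop (𝓝 0) := by
  refine ⟨fM, a, form, ?_, countNonzero_eq, ?_, ?_, ncard_pos, ?_⟩
  · intro q χ hq hp h2
    have : NeZero q := ⟨hq⟩
    exact centralValueZero q χ hp h2
  · rintro ⟨c, hc, h⟩
    obtain ⟨x, hx, hx0⟩ := (h.and_eventually (eventually_gt_atTop (0 : ℝ))).exists
    rw [countNonzero_eq, Nat.cast_zero] at hx
    exact absurd (mul_pos hc hx0) (not_lt.mpr hx)
  · simp only [countNonzero_eq, Nat.cast_zero, zero_div]
    exact liminf_const 0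
  · simp only [countNonzero_eq, Nat.cast_zero, zero_div]
    exact tendsto_const_nhds

end Pool.Agent.Results.MP_5f72fe_nt.NoPositiveProportion
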